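import Pool.Agent.H382P.PosProp
import Pool.Agent.H370R2.Dyadic

/-!
# Counting pairs of zeros through the enumeration of the ordinates
-/

open Complex Filter

namespace W200.HW

open SG (ord NZ zmult ZS)

/-- indices of the ordinates `≤ T` -/
noncomputable def Ix (T : ℝ) : Finset ℕ := Finset.Icc 1 (NZ T)

lemma mem_Ix {T : ℝ} {n : ℕ} : n ∈ Ix T ↔ 1 ≤ n ∧ ord n ≤ T := by
  unfold Ix
  rw [Finset.mem_Icc]
  constructor
  · rintro ⟨h1, h2⟩
    exact ⟨h1, (SG.ord_le_iff h1 T).mpr h2⟩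
  · rintro ⟨h1, h2⟩
    exact ⟨h1, (SG.ord_le_iff h1 T).mp h2⟩

lemma card_Ix (T : ℝ) : (Ix T).card = NZ T := by
  unfold Ix
  rw [Nat.card_Icc]
  omega

/-- on RH the zeros in the strip lie on the line -/
lemma re_half (RH : RiemannHypothesis) {s : ℂ} (h0 : riemannZeta s = 0) (him : 0 < s.im) :
    s.re = 1 / 2 := by
  apply RH s h0
  · rintro ⟨n, hn⟩
    rw [hn] at him
    simp at him
  · intro h
    rw [h] at him
    simp at him

lemma ord_fib (RH : RiemannHypothesis) {T : ℝ} {s : ℂ} (hs : s ∈ ZS T) :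
    ((Ix T).filter (fun n => ord n = s.im)).card = zmult s := by
  obtain ⟨h0, h1, h2, h3, h4⟩ := hs
  have h := SG.ord_count s.im h3
  have e1 : {z : ℂ | riemannZeta z = 0 ∧ 0 < z.re ∧ z.re < 1 ∧ z.im = s.im} = {s} := by
    ext z
    constructor
    · rintro ⟨a1, a2, a3, a4⟩
      have hz : z.re = 1 / 2 := re_half RH a1 (a4 ▸ h3)
      exact Complex.ext (hz.trans (re_half RH h0 h3).symm) a4
    · rintro rfl
      exact ⟨h0, h1, h2, rfl⟩
  rw [e1, finsum_mem_singleton] at h
  rw [← h, ← Set.ncard_coe_finset]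
  congr 1
  ext n
  simp only [Finset.coe_filter, Set.mem_ofPred_eq, mem_Ix]
  constructor
  · rintro ⟨⟨b1, b2⟩, b3⟩
    exact ⟨b1, b3⟩
  · rintro ⟨b1, b3⟩
    exact ⟨⟨b1, b3.le.trans h4⟩, b3⟩

lemma zero_at (RH : RiemannHypothesis) {T : ℝ} {n : ℕ} (hn : n ∈ Ix T) :
    (1 / 2 + I * ord n : ℂ) ∈ ZS T := by
  rw [mem_Ix] at hn
  have hpos := SG.ord_pos hn.1
  have h := SG.ord_count (ord n) hpos
  have hne : {m : ℕ | 1 ≤ m ∧ ord m = ord n}.ncard ≠ 0 := by
    have hfin : {m : ℕ | 1 ≤ m ∧ ord m = ord n}.Finite := by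
      refine (Set.finite_Iic (NZ T)).subset ?_
      rintro m ⟨a1, a2⟩
      exact (SG.ord_le_iff a1 T).mp (a2.le.trans hn.2)
    rw [Ne, Set.ncard_eq_zero hfin]
    exact Set.Nonempty.ne_empty ⟨n, hn.1, rfl⟩
  rw [h] at hne
  obtain ⟨z, hz⟩ := exists_ne_zero_of_finsum_mem_ne_zero hne
  obtain ⟨⟨a1, a2, a3, a4⟩, -⟩ := hz
  have hzim : 0 < z.im := a4 ▸ hpos
  have hz2 := re_half RH a1 hzim
  have e : (1 / 2 + I * ord n : ℂ) = z := by
    apply Complex.ext
    · simp [hz2]
    · simp [a4]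
  rw [e]
  exact ⟨a1, a2, a3, hzim, a4.le.trans hn.2⟩

/-- the number of index pairs is at most the weighted number of pairs of zeros -/
lemma pairs_le (RH : RiemannHypothesis) (T : ℝ) (R : ℝ → ℝ → Prop) [DecidableRel R] :
    ((Ix T ×ˢ Ix T).filter (fun p => R (ord p.1) (ord p.2))).card ≤
      ∑ s ∈ (SG.ZS_finite T).toFinset, ∑ s' ∈ (SG.ZS_finite T).toFinset,
        if R s.im s'.im then zmult s * zmult s' else 0 := by
  classical
  set Z := (SG.ZS_finite T).toFinset with hZ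
  set P := (Ix T ×ˢ Ix T).filter (fun p => R (ord p.1) (ord p.2)) with hP
  set f : ℕ × ℕ → ℂ × ℂ := fun p => (1 / 2 + I * ord p.1, 1 / 2 + I * ord p.2) with hf
  have hmap : ∀ p ∈ P, f p ∈ Z ×ˢ Z := by
    intro p hp
    rw [hP, Finset.mem_filter, Finset.mem_product] at hp
    rw [Finset.mem_product, hZ, Set.Finite.mem_toFinset, Set.Finite.mem_toFinset]
    exact ⟨zero_at RH hp.1.1, zero_at RH hp.1.2⟩
  rw [Finset.card_eq_sum_card_fiberwise hmap, Finset.sum_product]
  apply Finset.sum_le_sum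
  intro s hs
  apply Finset.sum_le_sum
  intro s' hs'
  have hs1 : s ∈ ZS T := by rwa [hZ, Set.Finite.mem_toFinset] at hs
  have hs1' : s' ∈ ZS T := by rwa [hZ, Set.Finite.mem_toFinset] at hs'
  have key : P.filter (fun p => f p = (s, s')) ⊆
      ((Ix T).filter (fun n => ord n = s.im)) ×ˢ ((Ix T).filter (fun n => ord n = s'.im)) := by
    intro p hp
    rw [Finset.mem_filter, hP, Finset.mem_filter, Finset.mem_product] at hp
    obtain ⟨⟨⟨a1, a2⟩, a3⟩, a4⟩ := hp
    have b1 := congrArg (fun q : ℂ × ℂ => q.1.im) a4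
    have b2 := congrArg (fun q : ℂ × ℂ => q.2.im) a4
    simp [hf] at b1 b2
    rw [Finset.mem_product, Finset.mem_filter, Finset.mem_filter]
    exact ⟨⟨a1, b1⟩, ⟨a2, b2⟩⟩
  split_ifs with hR
  · refine (Finset.card_le_card key).trans ?_
    rw [Finset.card_product, ord_fib RH hs1, ord_fib RH hs1']
  · rw [Nat.le_zero, Finset.card_eq_zero, Finset.filter_eq_empty_iff]
    intro p hp h
    rw [hP, Finset.mem_filter] at hp
    have b1 := congrArg (fun q : ℂ × ℂ => q.1.im) h
    have b2 := congrArg (fun q : ℂ × ℂ => q.2.im) h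
    simp [hf] at b1 b2
    apply hR
    rw [← b1, ← b2]
    exact hp.2

/-- `N(T) ≥ (1 - ε) (T/2π) log T` -/
lemma NZ_lower (ε : ℝ) (hε : 0 < ε) : ∃ T0 : ℝ, ∀ T : ℝ, T0 ≤ T →
    (1 - ε) * (T / (2 * Real.pi) * Real.log T) ≤ (NZ T : ℝ) := by
  obtain ⟨C, T1, hC, hT1, h⟩ := H370.nn_asymp H370.good_zeta
  have hpi := Real.pi_pos
  -- additivity
  have hstep : ∀ a b : ℝ, 1 ≤ a → a ≤ b →
      (NZ a : ℝ) + (H370.NN riemannZeta a b : ℝ) ≤ NZ b := by
    intro a b ha hab
    have hfin := H370.zset_finite H370.good_zeta a b ha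
    have e : H370.NN riemannZeta a b = ∑ s ∈ hfin.toFinset, H370.mult riemannZeta s := by
      unfold H370.NN
      exact finsum_mem_eq_finite_toFinset_sum _ hfin
    have h1 := SG.NZ_add_le a b hab hfin.toFinset (by
      intro s hs
      rw [Set.Finite.mem_toFinset] at hs
      obtain ⟨a1, a2, a3, a4, a5⟩ := hs
      exact ⟨⟨a5, a1, a2, by linarith, a4⟩, a3⟩)
    rw [e]
    exact_mod_cast h1
  -- iteration
  have hiter : ∀ J : ℕ, ∀ T : ℝ, T1 * 2 ^ J ≤ T →
      (1 - (1 / 2 : ℝ) ^ J) * (T / (2 * Real.pi) * Real.log T) - (C + J) * T ≤ (NZ T : ℝ) := by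
    intro J
    induction J with
    | zero =>
      intro T hT
      have hT0 : 0 ≤ T := by
        have : (0 : ℝ) ≤ T1 * 2 ^ 0 := by positivity
        linarith
      have : (0 : ℝ) ≤ NZ T := Nat.cast_nonneg _
      have h2 : 0 ≤ C * T := by positivity
      simp
      linarith
    | succ J ih =>
      intro T hT
      have hpow : (1 : ℝ) ≤ 2 ^ J := one_le_pow₀ (by norm_num)
      have hT' : T1 * 2 ^ J ≤ T / 2 := by
        rw [pow_succ] at hT
        linarith
      have hTT1 : T1 ≤ T / 2 := by nlinarith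
      have h1 := ih (T / 2) hT'
      have h2 := h (T / 2) hTT1 (T / 2) T le_rfl (by linarith) (by linarith) (by linarith)
      have h3 := hstep (T / 2) T (by linarith) (by linarith)
      have h4 := (abs_le.mp h2).1
      have hlog : Real.log (T / 2) = Real.log T - Real.log 2 :=
        Real.log_div (by linarith) (by norm_num)
      rw [hlog] at h1 h4
      have hl2 : Real.log 2 ≤ 1 := by
        have := Real.log_two_lt_d9
        linarith
      have hl2' : 0 < Real.log 2 := Real.log_pos (by norm_num)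
      have hlT : 0 ≤ Real.log T := Real.log_nonneg (by linarith)
      have hTp : 0 < T := by linarith
      have hx : ((1 / 2 : ℝ)) ^ J ≤ 1 := pow_le_one₀ (by norm_num) (by norm_num)
      have hx0 : 0 < ((1 / 2 : ℝ)) ^ J := by positivity
      rw [pow_succ]
      set q := ((1 / 2 : ℝ)) ^ J with hq
      have e1 : T / 2 * (Real.log T - Real.log 2) / (2 * Real.pi) =
          1 / 2 * (T / (2 * Real.pi) * Real.log T) - T / (2 * Real.pi) * (Real.log 2 / 2) := by
        field_simp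
      have e2 : T / 2 / (2 * Real.pi) * (Real.log T - Real.log 2) =
          1 / 2 * (T / (2 * Real.pi) * Real.log T) - T / (2 * Real.pi) * (Real.log 2 / 2) := by
        field_simp
      rw [e1] at h4
      rw [e2] at h1
      have hTpi : T / (2 * Real.pi) * (Real.log 2 / 2) ≤ T / 4 := by
        have : T / (2 * Real.pi) ≤ T / 2 := by
          apply div_le_div_of_nonneg_left hTp.le (by norm_num)
          linarith [Real.pi_gt_three]
        calc T / (2 * Real.pi) * (Real.log 2 / 2) ≤ T / 2 * (1 / 2) := by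
              apply mul_le_mul this (by linarith) (by positivity) (by positivity)
          _ = T / 4 := by ring
      set Y := T / (2 * Real.pi) * Real.log T with hY
      have hTpi0 : 0 ≤ T / (2 * Real.pi) * (Real.log 2 / 2) := by positivity
      set W := T / (2 * Real.pi) * (Real.log 2 / 2) with hW
      push_cast
      have h5 : (1 - q) * (1 / 2 * Y - W) ≥ (1 - q) * (1 / 2 * Y) - W := by
        nlinarith
      nlinarith
  obtain ⟨J, hJ⟩ := exists_pow_lt_of_lt_one (half_pos hε) (by norm_num : (1 / 2 : ℝ) < 1)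
  obtain ⟨T2, hT2⟩ := (tendsto_atTop.mp Real.tendsto_log_atTop
    ((C + J) * (2 * Real.pi) / (ε / 2))).exists_forall_of_atTop
  refine ⟨max (max (T1 * 2 ^ J) T2) 10, fun T hT => ?_⟩
  have hT1' : T1 * 2 ^ J ≤ T := ((le_max_left _ _).trans (le_max_left _ _)).trans hT
  have hT2' := hT2 T (((le_max_right _ _).trans (le_max_left _ _)).trans hT)
  have hT10 : 10 ≤ T := (le_max_right _ _).trans hT
  rw [div_le_iff₀ (by positivity)] at hT2'
  have h1 := hiter J T hT1'
  have hTp : 0 < T / (2 * Real.pi) := by positivity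
  have h2 := mul_le_mul_of_nonneg_left hT2' hTp.le
  have e : T / (2 * Real.pi) * ((C + J) * (2 * Real.pi)) = (C + J) * T := by field_simp
  rw [e] at h2
  have hlT : 0 ≤ Real.log T := Real.log_nonneg (by linarith)
  have h3 : (1 / 2 : ℝ) ^ J * (T / (2 * Real.pi) * Real.log T) ≤
      ε / 2 * (T / (2 * Real.pi) * Real.log T) :=
    mul_le_mul_of_nonneg_right hJ.le (by positivity)
  nlinarith

/-- for `β > 1/2` the index pairs with `0 ≤ ord a - ord b ≤ 2πβ / log T`, the diagonal included -/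
theorem main (RH : RiemannHypothesis) (β : ℝ) (hβ : 1 / 2 < β) :
    ∃ c : ℝ, 0 < c ∧ ∃ T0 : ℝ, 10 ≤ T0 ∧ ∀ T : ℝ, T0 ≤ T → ∀ (R : ℝ → ℝ → Prop) [DecidableRel R],
      (∀ x y : ℝ, 0 ≤ (x - y) * (Real.log T / (2 * Real.pi)) →
        (x - y) * (Real.log T / (2 * Real.pi)) ≤ β → R x y) →
      (1 + c) * (T / (2 * Real.pi) * Real.log T) ≤
        ((∑ s ∈ (SG.ZS_finite T).toFinset, ∑ s' ∈ (SG.ZS_finite T).toFinset,
          if R s.im s'.im then zmult s * zmult s' else 0 : ℕ) : ℝ) := by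
  classical
  have hRHs : SP.RHs := by
    intro s h1 h2 h0
    apply RH s h0
    · rintro ⟨k, hk⟩
      have := congrArg Complex.re hk
      simp at this
      have hk0 : (0 : ℝ) ≤ k := Nat.cast_nonneg k
      linarith
    · intro h; rw [h] at h2; simp at h2
  obtain ⟨ε, T1, hε, h⟩ := SP.pos_prop_pairs hRHs β hβ
  obtain ⟨T2, hT2⟩ := NZ_lower (ε / 2) (by linarith)
  refine ⟨ε / 2, by positivity, max (max T1 T2) 10, le_max_right _ _, fun T hT R _ hR => ?_⟩
  have h1 := h T (((le_max_left _ _).trans (le_max_left _ _)).trans hT)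
  have h2 := hT2 T (((le_max_right _ _).trans (le_max_left _ _)).trans hT)
  have h3 := pairs_le RH T R
  have h3' : (((Ix T ×ˢ Ix T).filter (fun p => R (ord p.1) (ord p.2))).card : ℝ) ≤
      ((∑ s ∈ (SG.ZS_finite T).toFinset, ∑ s' ∈ (SG.ZS_finite T).toFinset,
          if R s.im s'.im then zmult s * zmult s' else 0 : ℕ) : ℝ) := by exact_mod_cast h3
  refine le_trans ?_ h3'
  -- the off-diagonal pairs
  set Q : Finset (ℕ × ℕ) := (Ix T ×ˢ Ix T).filter (fun q => q.1 ≠ q.2 ∧
    0 ≤ (ord q.1 - ord q.2) * (Real.log T / (2 * Real.pi)) ∧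
        (ord q.1 - ord q.2) * (Real.log T / (2 * Real.pi)) ≤ β) with hQ
  have e1 : ({q : ℕ × ℕ | 1 ≤ q.1 ∧ 1 ≤ q.2 ∧ q.1 ≠ q.2 ∧ ord q.1 ≤ T ∧ ord q.2 ≤ T ∧
        0 ≤ (ord q.1 - ord q.2) * (Real.log T / (2 * Real.pi)) ∧
        (ord q.1 - ord q.2) * (Real.log T / (2 * Real.pi)) ≤ β}.ncard) = Q.card := by
    rw [← Set.ncard_coe_finset]
    congr 1
    ext q
    simp only [hQ, Finset.coe_filter, Set.mem_ofPred_eq, Finset.mem_product, mem_Ix]
    tauto
  rw [e1] at h1
  set D : Finset (ℕ × ℕ) := (Ix T).image (fun n => (n, n)) with hD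
  have e2 : D.card = NZ T := by
    rw [hD, Finset.card_image_of_injective _ (fun a b hab => (Prod.mk.inj hab).1), card_Ix]
  have hdisj : Disjoint D Q := by
    rw [Finset.disjoint_left]
    intro q hq hq'
    rw [hD, Finset.mem_image] at hq
    obtain ⟨n, -, rfl⟩ := hq
    rw [hQ, Finset.mem_filter] at hq'
    exact hq'.2.1 rfl
  have hsub : D ∪ Q ⊆ (Ix T ×ˢ Ix T).filter (fun p => R (ord p.1) (ord p.2)) := by
    intro q hq
    rw [Finset.mem_union] at hq
    rw [Finset.mem_filter]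
    rcases hq with hq | hq
    · rw [hD, Finset.mem_image] at hq
      obtain ⟨n, hn, rfl⟩ := hq
      refine ⟨Finset.mem_product.mpr ⟨hn, hn⟩, hR _ _ ?_ ?_⟩
      · simp
      · simp
        linarith
    · rw [hQ, Finset.mem_filter] at hq
      exact ⟨hq.1, hR _ _ hq.2.2.1 hq.2.2.2⟩
  have hcard := Finset.card_le_card hsub
  rw [Finset.card_union_of_disjoint hdisj, e2] at hcard
  have hcard' : (NZ T : ℝ) + Q.card ≤
      (((Ix T ×ˢ Ix T).filter (fun p => R (ord p.1) (ord p.2))).card : ℝ) := by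
    exact_mod_cast hcard
  refine le_trans ?_ hcard'
  linarith

end W200.HW
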